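import Mathlib

/-!
# Module D1 of MP_6e521b_an: the one-variable lemma

For a polynomial `q` of degree at most `d` and an entire function `F` one has
`|F(0)|^2 (|q_k| t^k)^2 ≤ C ∫ |q F|^2` over the circle of radius `t`.
The roots of `q` in the open disc are reflected, which turns the value at `0` into the
Mahler measure.
-/

open Polynomial MeasureTheory Real

namespace Pool.Agent.H55.FB

/-- The reflected linear factor. -/
noncomputable def hh (b z : ℂ) : ℂ :=
  if ‖b‖ < 1 then 1 - (starRingEnd ℂ) b * z else z - b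

lemma norm_hh (b z : ℂ) (hz : ‖z‖ = 1) : ‖hh b z‖ = ‖z - b‖ := by
  unfold hh
  split_ifs with h
  · have h1 : z * (starRingEnd ℂ) z = 1 := by
      rw [Complex.mul_conj, Complex.normSq_eq_norm_sq, hz]; simp
    have h2 : 1 - (starRingEnd ℂ) b * z = z * (starRingEnd ℂ) (z - b) := by
      rw [map_sub, mul_sub, h1]; ring
    rw [h2, norm_mul, hz, one_mul, Complex.norm_conj]
  · rfl

lemma norm_hh_zero (b : ℂ) : ‖hh b 0‖ = max 1 ‖b‖ := by
  unfold hh
  split_ifs with h
  · simp [max_eq_left h.le]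
  · simp [max_eq_right (not_lt.mp h)]

lemma diff_hh (b : ℂ) : Differentiable ℂ (hh b) := by
  unfold hh
  split_ifs with h
  · fun_prop
  · fun_prop

/-- The reflected polynomial. -/
noncomputable def qh (q : ℂ[X]) (z : ℂ) : ℂ :=
  q.leadingCoeff * (q.roots.map (fun b => hh b z)).prod

lemma norm_multiset_prod (s : Multiset ℂ) : ‖s.prod‖ = (s.map (fun x => ‖x‖)).prod := by
  induction s using Multiset.induction_on with
  | empty => simp
  | cons a s ih => simp [ih]

lemma norm_qh (q : ℂ[X]) (z : ℂ) (hz : ‖z‖ = 1) : ‖qh q z‖ = ‖q.eval z‖ := by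
  have h : q.eval z = q.leadingCoeff * (q.roots.map (fun b => z - b)).prod := by
    conv_lhs => rw [(IsAlgClosed.splits q).eq_prod_roots]
    rw [eval_mul, eval_C, eval_multiset_prod, Multiset.map_map]
    congr 2
    apply Multiset.map_congr rfl
    intro b _
    simp
  rw [h, qh, norm_mul, norm_mul, norm_multiset_prod, norm_multiset_prod, Multiset.map_map,
    Multiset.map_map]
  congr 2
  apply Multiset.map_congr rfl
  intro b _
  exact norm_hh b z hz

lemma norm_qh_zero (q : ℂ[X]) : ‖qh q 0‖ = q.mahlerMeasure := by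
  rw [mahlerMeasure_eq_leadingCoeff_mul_prod_roots, qh, norm_mul, norm_multiset_prod,
    Multiset.map_map]
  congr 2
  apply Multiset.map_congr rfl
  intro b _
  exact norm_hh_zero b

lemma diff_multiset (s : Multiset ℂ) :
    Differentiable ℂ (fun z => (s.map (fun b => hh b z)).prod) := by
  induction s using Multiset.induction_on with
  | empty => simp
  | cons a s ih =>
    simp only [Multiset.map_cons, Multiset.prod_cons]
    exact (diff_hh a).mul ih

lemma diff_qh (q : ℂ[X]) : Differentiable ℂ (qh q) :=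
  (differentiable_const _).mul (diff_multiset _)

lemma norm_circleMap_one (θ : ℝ) : ‖circleMap 0 1 θ‖ = 1 := by
  simp [circleMap]

/-- The estimate on the unit circle, with the Mahler measure. -/
lemma mal_unit (q : ℂ[X]) (F : ℂ → ℂ) (hF : Differentiable ℂ F) :
    2 * π * (q.mahlerMeasure * ‖F 0‖) ^ 2
      ≤ ∫ θ in (0 : ℝ)..2 * π, ‖q.eval (circleMap 0 1 θ) * F (circleMap 0 1 θ)‖ ^ 2 := by
  set G : ℂ → ℂ := fun z => qh q z * F z with hG
  have hGd : Differentiable ℂ G := (diff_qh q).mul hF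
  have hGc : Continuous G := hGd.continuous
  have hcm : Continuous (fun θ : ℝ => circleMap 0 1 θ) := continuous_circleMap 0 1
  set f : ℝ → ℝ := fun θ => ‖G (circleMap 0 1 θ)‖ with hf
  have hfc : Continuous f := (hGc.comp hcm).norm
  have e1 : (fun θ : ℝ => ‖q.eval (circleMap 0 1 θ) * F (circleMap 0 1 θ)‖ ^ 2)
      = fun θ => f θ ^ 2 := by
    funext θ
    simp only [hf, hG, norm_mul, norm_qh q _ (norm_circleMap_one θ)]
  have e2 : ‖G 0‖ = q.mahlerMeasure * ‖F 0‖ := by
    simp only [hG, norm_mul, norm_qh_zero]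
  rw [e1, ← e2]
  have hav : Real.circleAverage G 0 1 = G 0 := DiffContOnCl.circleAverage hGd.diffContOnCl
  have hpi : (0 : ℝ) < 2 * π := by positivity
  have h1 : 2 * π * ‖G 0‖ ≤ ∫ θ in (0 : ℝ)..2 * π, f θ := by
    rw [← hav, Real.circleAverage_def, norm_smul, Real.norm_eq_abs, abs_of_pos (inv_pos.mpr hpi),
      ← mul_assoc, mul_inv_cancel₀ hpi.ne', one_mul]
    exact intervalIntegral.norm_integral_le_integral_norm hpi.le
  set a : ℝ := ‖G 0‖ with ha
  have ha0 : 0 ≤ a := norm_nonneg _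
  have h2 : 0 ≤ ∫ θ in (0 : ℝ)..2 * π, (f θ - a) ^ 2 :=
    intervalIntegral.integral_nonneg hpi.le (fun θ _ => sq_nonneg _)
  have h3 : ∫ θ in (0 : ℝ)..2 * π, (f θ - a) ^ 2
      = (∫ θ in (0 : ℝ)..2 * π, f θ ^ 2) - 2 * a * (∫ θ in (0 : ℝ)..2 * π, f θ)
        + 2 * π * a ^ 2 := by
    have e3 : (fun θ => (f θ - a) ^ 2) = fun θ => (f θ ^ 2 - 2 * a * f θ) + a ^ 2 := by
      funext θ; ring
    rw [e3, intervalIntegral.integral_add, intervalIntegral.integral_sub,
      intervalIntegral.integral_const_mul, intervalIntegral.integral_const]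
    · simp
    · exact (hfc.pow 2).intervalIntegrable _ _
    · exact (hfc.const_mul (2 * a)).intervalIntegrable _ _
    · exact ((hfc.pow 2).sub (hfc.const_mul (2 * a))).intervalIntegrable _ _
    · exact continuous_const.intervalIntegrable _ _
  rw [h3] at h2
  nlinarith [mul_le_mul_of_nonneg_left h1 ha0]

/-- **Module D1**: the one-variable lemma. -/
theorem mal (d k : ℕ) : ∃ C > (0 : ℝ), ∀ q : Polynomial ℂ, q.natDegree ≤ d →
    ∀ F : ℂ → ℂ, Differentiable ℂ F → ∀ t > (0 : ℝ),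
      ‖F 0‖ ^ 2 * (‖q.coeff k‖ * t ^ k) ^ 2
        ≤ C * ∫ θ in (0 : ℝ)..2 * Real.pi,
          ‖q.eval (circleMap 0 t θ) * F (circleMap 0 t θ)‖ ^ 2 := by
  have hpi : (0 : ℝ) < 2 * π := by positivity
  refine ⟨(2 : ℝ) ^ (2 * d) * (2 * π)⁻¹, by positivity, ?_⟩
  intro q hq F hF t ht
  set p : ℂ[X] := q.comp (C (t : ℂ) * X) with hp
  have hcoeff : p.coeff k = q.coeff k * (t : ℂ) ^ k := by
    rw [hp, comp_C_mul_X_coeff]
  have hdeg : p.natDegree ≤ d := by
    refine (natDegree_comp_le).trans ?_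
    calc q.natDegree * (C (t : ℂ) * X).natDegree ≤ q.natDegree * 1 :=
          Nat.mul_le_mul_left _ ((natDegree_C_mul_le _ _).trans natDegree_X_le)
      _ ≤ d := by omega
  have hcm : ∀ θ : ℝ, circleMap 0 t θ = (t : ℂ) * circleMap 0 1 θ := by
    intro θ; simp [circleMap]
  have heval : ∀ θ : ℝ, q.eval (circleMap 0 t θ) = p.eval (circleMap 0 1 θ) := by
    intro θ
    rw [hp, eval_comp, hcm]; simp
  have hF' : Differentiable ℂ (fun z => F ((t : ℂ) * z)) :=
    hF.comp ((differentiable_const _).mul differentiable_id)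
  have key := mal_unit p (fun z => F ((t : ℂ) * z)) hF'
  have e1 : (fun θ : ℝ => ‖q.eval (circleMap 0 t θ) * F (circleMap 0 t θ)‖ ^ 2)
      = fun θ => ‖p.eval (circleMap 0 1 θ) * F ((t : ℂ) * circleMap 0 1 θ)‖ ^ 2 := by
    funext θ
    rw [heval, hcm]
  rw [e1]
  have hb : ‖q.coeff k‖ * t ^ k ≤ 2 ^ d * p.mahlerMeasure := by
    have h1 : ‖p.coeff k‖ = ‖q.coeff k‖ * t ^ k := by
      rw [hcoeff, norm_mul, norm_pow, Complex.norm_real, Real.norm_eq_abs, abs_of_pos ht]
    rw [← h1]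
    refine (norm_coeff_le_choose_mul_mahlerMeasure k p).trans ?_
    apply mul_le_mul_of_nonneg_right _ (mahlerMeasure_nonneg p)
    have h2 : (p.natDegree).choose k ≤ 2 ^ d :=
      (Nat.choose_le_two_pow _ _).trans (Nat.pow_le_pow_right (by norm_num) hdeg)
    exact_mod_cast h2
  have hb0 : 0 ≤ ‖q.coeff k‖ * t ^ k := by positivity
  have h4 : ‖F 0‖ ^ 2 * (‖q.coeff k‖ * t ^ k) ^ 2
      ≤ 2 ^ (2 * d) * (p.mahlerMeasure * ‖F 0‖) ^ 2 := by
    have h5 : (‖q.coeff k‖ * t ^ k) ^ 2 ≤ (2 ^ d * p.mahlerMeasure) ^ 2 :=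
      pow_le_pow_left₀ hb0 hb 2
    calc ‖F 0‖ ^ 2 * (‖q.coeff k‖ * t ^ k) ^ 2
        ≤ ‖F 0‖ ^ 2 * (2 ^ d * p.mahlerMeasure) ^ 2 :=
          mul_le_mul_of_nonneg_left h5 (by positivity)
      _ = 2 ^ (2 * d) * (p.mahlerMeasure * ‖F 0‖) ^ 2 := by
          rw [pow_mul']; ring
  refine h4.trans ?_
  rw [mul_assoc]
  apply mul_le_mul_of_nonneg_left _ (by positivity)
  rw [← div_eq_inv_mul, le_div_iff₀ hpi]
  simp only [mul_zero] at key
  linarith

end Pool.Agent.H55.FB
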