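import Pool.Agent.H60.FB.Hp
import Pool.Agent.H55.FB.Mal

/-!
# Module D2a of MP_6e521b_an: the pointwise Malgrange type estimate with weights
-/

open Polynomial MeasureTheory
open Pool.Agent.H60.FB

namespace Pool.Agent.H55.FB

variable {n : ℕ}

/-- The restriction of `hp P m x` to the complex line `ζ + λ v`, as a polynomial in `λ`. -/
noncomputable def lin (P : MvPolynomial (Fin n) ℂ) (m : ℕ) (x : ℂ) (ζ v : Fin n → ℂ) : ℂ[X] :=
  ∑ s ∈ P.support, C (P.coeff s * x ^ (m - s.degree)) * ∏ i, (C (ζ i) + C (v i) * X) ^ s i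

lemma eval_lin (P : MvPolynomial (Fin n) ℂ) (m : ℕ) (x : ℂ) (ζ v : Fin n → ℂ) (c : ℂ) :
    (lin P m x ζ v).eval c = hp P m x (ζ + c • v) := by
  unfold lin hp
  rw [eval_finsetSum]
  refine Finset.sum_congr rfl fun s _ => ?_
  rw [eval_mul, eval_C, eval_prod]
  congr 1
  refine Finset.prod_congr rfl fun i _ => ?_
  simp only [eval_pow, eval_add, eval_C, eval_mul, eval_X, Pi.add_apply, Pi.smul_apply,
    smul_eq_mul]
  ring

lemma natDegree_lin1 (a b : ℂ) : (C a + C b * X : ℂ[X]).natDegree ≤ 1 := by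
  refine (natDegree_add_le _ _).trans ?_
  refine max_le (by simp) ((natDegree_C_mul_le _ _).trans natDegree_X_le)

lemma coeff_prod_top {ι : Type*} (S : Finset ι) (f : ι → ℂ[X]) (d : ι → ℕ)
    (h : ∀ i ∈ S, (f i).natDegree ≤ d i) :
    (∏ i ∈ S, f i).natDegree ≤ ∑ i ∈ S, d i ∧
      (∏ i ∈ S, f i).coeff (∑ i ∈ S, d i) = ∏ i ∈ S, (f i).coeff (d i) := by
  classical
  induction S using Finset.induction_on with
  | empty => simp
  | insert a S ha ih =>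
    have ih' := ih (fun i hi => h i (Finset.mem_insert_of_mem hi))
    have h1 := h a (Finset.mem_insert_self a S)
    rw [Finset.prod_insert ha, Finset.sum_insert ha, Finset.prod_insert ha]
    refine ⟨(natDegree_mul_le).trans (add_le_add h1 ih'.1), ?_⟩
    rw [coeff_mul_add_eq_of_natDegree_le h1 ih'.1, ih'.2]

lemma natDegree_pow1 (a b : ℂ) (k : ℕ) : ((C a + C b * X : ℂ[X]) ^ k).natDegree ≤ k := by
  refine (natDegree_pow_le).trans ?_
  calc k * (C a + C b * X : ℂ[X]).natDegree ≤ k * 1 := Nat.mul_le_mul_left _ (natDegree_lin1 a b)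
    _ = k := mul_one k

lemma coeff_pow1 (a b : ℂ) (k : ℕ) : ((C a + C b * X : ℂ[X]) ^ k).coeff k = b ^ k := by
  have h := coeff_pow_of_natDegree_le (m := k) (natDegree_lin1 a b)
  rw [mul_one] at h
  rw [h]
  simp

lemma natDegree_lin {P : MvPolynomial (Fin n) ℂ} {m : ℕ} (hP : P.totalDegree ≤ m) (x : ℂ)
    (ζ v : Fin n → ℂ) : (lin P m x ζ v).natDegree ≤ m := by
  unfold lin
  refine natDegree_sum_le_of_forall_le _ _ fun s hs => ?_
  refine (natDegree_C_mul_le _ _).trans ?_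
  have h1 := (coeff_prod_top Finset.univ (fun i => (C (ζ i) + C (v i) * X : ℂ[X]) ^ s i)
    (fun i => s i) (fun i _ => natDegree_pow1 _ _ _)).1
  refine h1.trans ?_
  rw [← Finsupp.degree_eq_sum]
  exact (MvPolynomial.le_totalDegree hs).trans hP

lemma coeff_lin_top {P : MvPolynomial (Fin n) ℂ} {m : ℕ} (hP : P.totalDegree ≤ m) (x : ℂ)
    (ζ v : Fin n → ℂ) : (lin P m x ζ v).coeff m = hp P m 0 v := by
  unfold lin hp
  rw [finsetSum_coeff]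
  refine Finset.sum_congr rfl fun s hs => ?_
  rw [coeff_C_mul]
  have h1 := coeff_prod_top Finset.univ (fun i => (C (ζ i) + C (v i) * X : ℂ[X]) ^ s i)
    (fun i => s i) (fun i _ => natDegree_pow1 _ _ _)
  rw [← Finsupp.degree_eq_sum] at h1
  have hd : s.degree ≤ m := (MvPolynomial.le_totalDegree hs).trans hP
  rcases hd.eq_or_lt with h | h
  · rw [← h, h1.2, Nat.sub_self, pow_zero, pow_zero]
    congr 1
    refine Finset.prod_congr rfl fun i _ => ?_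
    exact coeff_pow1 _ _ _
  · rw [coeff_eq_zero_of_natDegree_lt (h1.1.trans_lt h), zero_pow (Nat.sub_pos_of_lt h).ne']
    ring

lemma coeff_lin_one (P : MvPolynomial (Fin n) ℂ) (m : ℕ) (x : ℂ)
    (ζ : Fin n → ℂ) (j : Fin n) : (lin P m x ζ (Pi.single j 1)).coeff 1 = gr P m x ζ j := by
  have h1 : HasDerivAt (fun c : ℂ => (lin P m x ζ (Pi.single j 1)).eval c)
      ((lin P m x ζ (Pi.single j 1)).derivative.eval 0) 0 := Polynomial.hasDerivAt _ _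
  have h2 : HasDerivAt (fun c : ℂ => hp P m x (ζ + c • Pi.single j 1))
      (fderiv ℂ (fun u => hp P m x u) ζ (Pi.single j 1)) 0 := by
    have h4 : HasFDerivAt (fun u => hp P m x u) (fderiv ℂ (fun u => hp P m x u) ζ)
        (ζ + (0 : ℂ) • Pi.single j 1) := by
      rw [zero_smul, add_zero]; exact (differentiable_hp P m x ζ).hasFDerivAt
    have h5 : HasDerivAt (fun c : ℂ => ζ + c • (Pi.single j 1 : Fin n → ℂ)) (Pi.single j 1) 0 := by
      have := ((hasDerivAt_id (0 : ℂ)).smul_const (Pi.single j 1 : Fin n → ℂ)).const_add ζ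
      simpa using this
    exact h4.comp_hasDerivAt (0 : ℂ) h5
  have e : (fun c : ℂ => (lin P m x ζ (Pi.single j 1)).eval c)
      = fun c : ℂ => hp P m x (ζ + c • Pi.single j 1) := by
    funext c; exact eval_lin P m x ζ _ c
  rw [e] at h1
  have h3 := h1.unique h2
  rw [← coeff_zero_eq_eval_zero, coeff_derivative] at h3
  unfold gr
  simpa using h3

/-- Elementary inequality. -/
lemma exp_le_one_add {x : ℝ} (hx : |x| ≤ 1 / 2) : Real.exp (x - 2 * x ^ 2) ≤ 1 + x := by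
  have h1 : -(1 / 2) ≤ x := (abs_le.mp hx).1
  have h2 : 1 - x + 2 * x ^ 2 ≤ Real.exp (-(x - 2 * x ^ 2)) := by
    have := Real.add_one_le_exp (-(x - 2 * x ^ 2))
    linarith
  have h3 : 0 < 1 - x + 2 * x ^ 2 := by nlinarith [sq_nonneg (x - 1 / 4)]
  have h4 : 1 ≤ (1 - x + 2 * x ^ 2) * (1 + x) := by nlinarith [sq_nonneg x]
  have h5 : Real.exp (x - 2 * x ^ 2) = (Real.exp (-(x - 2 * x ^ 2)))⁻¹ := by
    rw [Real.exp_neg, inv_inv]
  rw [h5]
  calc (Real.exp (-(x - 2 * x ^ 2)))⁻¹ ≤ (1 - x + 2 * x ^ 2)⁻¹ := inv_anti₀ h3 h2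
    _ ≤ 1 + x := by
        rw [inv_eq_one_div, div_le_iff₀ h3]
        linarith

/-- The linear part in a direction. -/
lemma omv_bound {om : Fin n → ℂ} {L : ℝ} (hL : ∀ j, ‖om j‖ ≤ L) (v : Fin n → ℂ) :
    ‖∑ j, v j * om j‖ ≤ n * L * ‖v‖ := by
  refine (norm_sum_le _ _).trans ?_
  calc ∑ j, ‖v j * om j‖ ≤ ∑ _j : Fin n, ‖v‖ * L := by
        refine Finset.sum_le_sum fun j _ => ?_
        rw [norm_mul]
        exact mul_le_mul (norm_le_pi_norm v j) (hL j) (norm_nonneg _) (norm_nonneg _)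
    _ = n * L * ‖v‖ := by
        rw [Finset.sum_const, Finset.card_univ, Fintype.card_fin, nsmul_eq_mul]; ring

/-- The relative change of the weight. -/
lemma rel_change {L₁ : ℝ} (hL₁ : 1 ≤ L₁) {ψ : (Fin n → ℂ) → ℝ} {om : (Fin n → ℂ) → Fin n → ℂ}
    (hW : IsW L₁ ψ om) {ζ : Fin n → ℂ} (hζ : ψ ζ < 1) {ε : ℝ} (hε : 0 < ε) (hε1 : ε ≤ 1)
    {w : Fin n → ℂ} (hw : ‖w‖ ≤ 1 / (8 * (n + 1) * L₁) * ε * (1 - ψ ζ)) :
    |(1 - ψ (ζ + w)) / (1 - ψ ζ) - 1| ≤ ε / 2 ∧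
      |((1 - ψ (ζ + w)) / (1 - ψ ζ) - 1) + 2 * (∑ j, w j * om ζ j).re / (1 - ψ ζ)|
        ≤ ε ^ 2 / 32 := by
  set g : ℝ := 1 - ψ ζ with hg
  have hg0 : 0 < g := by rw [hg]; linarith
  have hg2 : g ≤ 2 := by have := hW.lower ζ; rw [hg]; linarith
  set c₀ : ℝ := 1 / (8 * (n + 1) * L₁) with hc
  have hn : (0 : ℝ) ≤ n := Nat.cast_nonneg n
  have hden : 0 < 8 * ((n : ℝ) + 1) * L₁ := by positivity
  have hc0 : 0 < c₀ := by positivity
  have hcn : c₀ * (8 * (n + 1) * L₁) = 1 := by rw [hc]; field_simp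
  have hc8 : c₀ * L₁ ≤ 1 / 8 := by nlinarith [mul_nonneg hn (mul_pos hc0 (by linarith : 0 < L₁)).le]
  have hcnL : 2 * (n * L₁ * c₀) ≤ 1 / 4 := by nlinarith [mul_pos hc0 (by linarith : 0 < L₁)]
  have hc18 : c₀ ≤ 1 / 8 := by nlinarith
  have hw1 : ‖w‖ ≤ 1 := by
    refine hw.trans ?_
    have h1 : c₀ * ε * g ≤ 1 / 8 * 1 * 2 := by gcongr
    linarith
  have hder := hW.der ζ hζ w hw1
  have hS := omv_bound (hW.lip ζ hζ) w
  set S : ℂ := ∑ j, w j * om ζ j with hSd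
  have hre : |S.re| ≤ n * L₁ * ‖w‖ := (Complex.abs_re_le_norm S).trans hS
  have hw0 : 0 ≤ ‖w‖ := norm_nonneg w
  -- quadratic term
  have hq : L₁ * ‖w‖ ^ 2 ≤ ε ^ 2 / 32 * g := by
    have h1 : ‖w‖ ^ 2 ≤ (c₀ * ε * g) ^ 2 := pow_le_pow_left₀ hw0 hw 2
    have h2 : L₁ * ‖w‖ ^ 2 ≤ L₁ * (c₀ * ε * g) ^ 2 := mul_le_mul_of_nonneg_left h1 (by linarith)
    have h3 : L₁ * (c₀ * ε * g) ^ 2 = (c₀ * L₁) * c₀ * g * (ε ^ 2 * g) := by ring
    have h4 : (c₀ * L₁) * c₀ * g ≤ 1 / 8 * (1 / 8) * 2 := by gcongr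
    have h5 : (c₀ * L₁) * c₀ * g * (ε ^ 2 * g) ≤ 1 / 8 * (1 / 8) * 2 * (ε ^ 2 * g) :=
      mul_le_mul_of_nonneg_right h4 (by positivity)
    rw [h3] at h2
    linarith
  have hlin : 2 * |S.re| ≤ ε / 4 * g := by
    have h1 : (n : ℝ) * L₁ * ‖w‖ ≤ n * L₁ * (c₀ * ε * g) :=
      mul_le_mul_of_nonneg_left hw (by positivity)
    have h2 : (n : ℝ) * L₁ * (c₀ * ε * g) = (n * L₁ * c₀) * (ε * g) := by ring
    have h3 : 2 * (n * L₁ * c₀) * (ε * g) ≤ 1 / 4 * (ε * g) :=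
      mul_le_mul_of_nonneg_right hcnL (by positivity)
    rw [h2] at h1
    linarith
  have e1 : (1 - ψ (ζ + w)) / g - 1 = -(ψ (ζ + w) - ψ ζ) / g := by
    rw [div_sub_one hg0.ne']
    congr 1
    rw [hg]; ring
  have hdw : |ψ (ζ + w) - ψ ζ| ≤ 2 * |S.re| + L₁ * ‖w‖ ^ 2 := by
    have h1 : ψ (ζ + w) - ψ ζ = (ψ (ζ + w) - ψ ζ - 2 * S.re) + 2 * S.re := by ring
    rw [h1]
    refine (abs_add_le _ _).trans ?_
    rw [abs_mul, abs_two]
    linarith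
  constructor
  · rw [e1, abs_div, abs_neg, abs_of_pos hg0, div_le_iff₀ hg0]
    have h6 : ε ^ 2 ≤ ε := by nlinarith
    have h7 : ε ^ 2 * g ≤ ε * g := mul_le_mul_of_nonneg_right h6 hg0.le
    have h8 : 0 < ε * g := by positivity
    nlinarith
  · have e2 : (1 - ψ (ζ + w)) / g - 1 + 2 * S.re / g
        = -(ψ (ζ + w) - ψ ζ - 2 * S.re) / g := by rw [e1]; ring
    rw [e2, abs_div, abs_neg, abs_of_pos hg0, div_le_iff₀ hg0]
    exact hder.trans hq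

/-- The weights along the line: `g^M |exp(-Aλ)|^2 ≤ 3 g(ζ + λ v)^M`. -/
lemma weight_line {L₁ : ℝ} (hL₁ : 1 ≤ L₁) {ψ : (Fin n → ℂ) → ℝ} {om : (Fin n → ℂ) → Fin n → ℂ}
    (hW : IsW L₁ ψ om) {ζ : Fin n → ℂ} (hζ : ψ ζ < 1) {ε : ℝ} (hε : 0 < ε) (hε1 : ε ≤ 1)
    {N M : ℕ} (hN : N * ε ^ 2 = 1) (hM : M ≤ N)
    {v : Fin n → ℂ} (hv : ‖v‖ ≤ 1) {c : ℂ}
    (hc : ‖c‖ ≤ 1 / (8 * (n + 1) * L₁) * ε * (1 - ψ ζ)) :
    (1 - ψ ζ) ^ M * ‖Complex.exp (-(M * (∑ j, v j * om ζ j) / ((1 - ψ ζ : ℝ) : ℂ)) * c)‖ ^ 2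
      ≤ 3 * (max (1 - ψ (ζ + c • v)) 0) ^ M := by
  have hw : ‖c • v‖ ≤ 1 / (8 * (n + 1) * L₁) * ε * (1 - ψ ζ) := by
    rw [norm_smul]
    calc ‖c‖ * ‖v‖ ≤ ‖c‖ * 1 := mul_le_mul_of_nonneg_left hv (norm_nonneg _)
      _ = ‖c‖ := mul_one _
      _ ≤ _ := hc
  obtain ⟨h1, h2⟩ := rel_change hL₁ hW hζ hε hε1 hw
  set g : ℝ := 1 - ψ ζ with hg
  have hg0 : 0 < g := by rw [hg]; linarith
  set x : ℝ := (1 - ψ (ζ + c • v)) / g - 1 with hx
  have hgx : 1 - ψ (ζ + c • v) = g * (1 + x) := by rw [hx]; field_simp; ring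
  have hx2 : |x| ≤ 1 / 2 := h1.trans (by linarith)
  have h1x : 0 < 1 + x := by have := (abs_le.mp hx2).1; linarith
  have hS : ∑ j, (c • v) j * om ζ j = c * ∑ j, v j * om ζ j := by
    rw [Finset.mul_sum]
    refine Finset.sum_congr rfl fun j _ => ?_
    simp only [Pi.smul_apply, smul_eq_mul]; ring
  rw [hS] at h2
  set B : ℂ := ∑ j, v j * om ζ j with hB
  have hM0 : (0 : ℝ) ≤ M := Nat.cast_nonneg M
  have hMN : (M : ℝ) * ε ^ 2 ≤ 1 := by
    rw [← hN]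
    exact mul_le_mul_of_nonneg_right (by exact_mod_cast hM) (by positivity)
  have hxsq : x ^ 2 ≤ (ε / 2) ^ 2 := by
    rw [← sq_abs x]
    exact pow_le_pow_left₀ (abs_nonneg x) h1 2
  have hMx : (M : ℝ) * x ^ 2 ≤ 1 / 4 := by
    have h3 : (M : ℝ) * x ^ 2 ≤ M * (ε / 2) ^ 2 := mul_le_mul_of_nonneg_left hxsq hM0
    nlinarith
  have hlow : -(2 * (c * B).re / g) - ε ^ 2 / 32 ≤ x := by
    have := (abs_le.mp h2).1
    linarith
  have hMlow : -((M : ℝ) * (2 * (c * B).re / g)) - 1 / 32 ≤ M * x := by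
    have h3 := mul_le_mul_of_nonneg_left hlow hM0
    nlinarith
  have hnorm : ‖Complex.exp (-((M : ℂ) * B / ((g : ℝ) : ℂ)) * c)‖ ^ 2
      = Real.exp (-((M : ℝ) * (2 * (c * B).re / g))) := by
    rw [Complex.norm_exp, ← Real.exp_nat_mul]
    congr 1
    have h3 : -((M : ℂ) * B / ((g : ℝ) : ℂ)) * c = -(((M / g : ℝ) : ℂ) * (c * B)) := by
      push_cast; ring
    rw [h3, Complex.neg_re, Complex.re_ofReal_mul]
    push_cast
    ring
  rw [hnorm, hgx, max_eq_left (by positivity), mul_pow]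
  have hpow : Real.exp (M * x - 2 * (M * x ^ 2)) ≤ (1 + x) ^ M := by
    have h3 : Real.exp (M * x - 2 * (M * x ^ 2)) = Real.exp (x - 2 * x ^ 2) ^ M := by
      rw [← Real.exp_nat_mul]; congr 1; ring
    rw [h3]
    exact pow_le_pow_left₀ (Real.exp_pos _).le (exp_le_one_add hx2) M
  have hK : Real.exp (-((M : ℝ) * (2 * (c * B).re / g)))
      ≤ 3 * Real.exp (M * x - 2 * (M * x ^ 2)) := by
    have h4 : -((M : ℝ) * (2 * (c * B).re / g)) ≤ 1 + (M * x - 2 * (M * x ^ 2)) := by linarith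
    calc Real.exp (-((M : ℝ) * (2 * (c * B).re / g)))
        ≤ Real.exp (1 + (M * x - 2 * (M * x ^ 2))) := Real.exp_le_exp.mpr h4
      _ = Real.exp 1 * Real.exp (M * x - 2 * (M * x ^ 2)) := Real.exp_add _ _
      _ ≤ 3 * Real.exp (M * x - 2 * (M * x ^ 2)) := by
          apply mul_le_mul_of_nonneg_right _ (Real.exp_pos _).le
          linarith [Real.exp_one_lt_d9]
  have hgM : 0 < g ^ M := by positivity
  calc g ^ M * Real.exp (-((M : ℝ) * (2 * (c * B).re / g)))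
      ≤ g ^ M * (3 * (1 + x) ^ M) := by
        apply mul_le_mul_of_nonneg_left _ hgM.le
        exact hK.trans (mul_le_mul_of_nonneg_left hpow (by norm_num))
    _ = 3 * (g ^ M * (1 + x) ^ M) := by ring

/-- The estimate in a direction `v`, for a coefficient `k`. -/
lemma qdir (P : MvPolynomial (Fin n) ℂ) {m : ℕ} (hP : P.totalDegree ≤ m) (k : ℕ) {C₀ : ℝ}
    (hC₀ : 0 < C₀)
    (hmal : ∀ q : Polynomial ℂ, q.natDegree ≤ m → ∀ F : ℂ → ℂ, Differentiable ℂ F →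
      ∀ t > (0 : ℝ), ‖F 0‖ ^ 2 * (‖q.coeff k‖ * t ^ k) ^ 2
        ≤ C₀ * ∫ θ in (0 : ℝ)..2 * Real.pi,
          ‖q.eval (circleMap 0 t θ) * F (circleMap 0 t θ)‖ ^ 2)
    {L₁ : ℝ} (hL₁ : 1 ≤ L₁) {ψ : (Fin n → ℂ) → ℝ} {om : (Fin n → ℂ) → Fin n → ℂ}
    (hW : IsW L₁ ψ om) {ζ : Fin n → ℂ} (hζ : ψ ζ < 1) {ε : ℝ} (hε : 0 < ε) (hε1 : ε ≤ 1)
    {N : ℕ} (hN : N * ε ^ 2 = 1)
    {v : Fin n → ℂ} (hv : ‖v‖ ≤ 1) {F : (Fin n → ℂ) → ℂ} (hF : Differentiable ℂ F)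
    {t : ℝ} (ht : 0 < t) (htc : t ≤ 1 / (8 * (n + 1) * L₁) * ε * (1 - ψ ζ)) :
    ‖F ζ‖ ^ 2 * (‖(lin P m ε ζ v).coeff k‖ * t ^ k) ^ 2 * (1 - ψ ζ) ^ (N - m)
      ≤ 3 * C₀ * ∫ θ in (0 : ℝ)..2 * Real.pi,
        ‖hp P m ε (ζ + circleMap 0 t θ • v) * F (ζ + circleMap 0 t θ • v)‖ ^ 2
          * (max (1 - ψ (ζ + circleMap 0 t θ • v)) 0) ^ (N - m) := by
  set A : ℂ := ((N - m : ℕ) : ℂ) * (∑ j, v j * om ζ j) / ((1 - ψ ζ : ℝ) : ℂ) with hA
  set G : ℂ → ℂ := fun c => F (ζ + c • v) * Complex.exp (-A * c) with hG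
  have hGd : Differentiable ℂ G := by
    have h1 : Differentiable ℂ (fun c : ℂ => ζ + c • v) :=
      (differentiable_id.smul_const v).const_add ζ
    have h2 : Differentiable ℂ (fun c : ℂ => F (ζ + c • v)) := hF.comp h1
    exact h2.mul ((differentiable_id.const_mul (-A)).cexp)
  have key := hmal (lin P m ε ζ v) (natDegree_lin hP _ _ _) G hGd t ht
  have hG0 : G 0 = F ζ := by simp [hG]
  rw [hG0] at key
  have hg0 : 0 < 1 - ψ ζ := by linarith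
  have hgM : 0 ≤ (1 - ψ ζ) ^ (N - m) := by positivity
  have hpi : (0 : ℝ) ≤ 2 * Real.pi := by positivity
  have hcm : Continuous (fun θ : ℝ => circleMap 0 t θ) := continuous_circleMap 0 t
  have hpt : Continuous (fun θ : ℝ => ζ + circleMap 0 t θ • v) :=
    continuous_const.add (hcm.smul continuous_const)
  have hhp : Continuous (fun u => hp P m ε u) := (differentiable_hp P m ε).continuous
  have hcont1 : Continuous (fun θ : ℝ => (1 - ψ ζ) ^ (N - m)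
      * ‖(lin P m ε ζ v).eval (circleMap 0 t θ) * G (circleMap 0 t θ)‖ ^ 2) := by
    refine continuous_const.mul ((Continuous.mul ?_ ?_).norm.pow 2)
    · exact (lin P m ε ζ v).continuous.comp hcm
    · exact hGd.continuous.comp hcm
  have hcont2 : Continuous (fun θ : ℝ => 3 *
      (‖hp P m ε (ζ + circleMap 0 t θ • v) * F (ζ + circleMap 0 t θ • v)‖ ^ 2
          * (max (1 - ψ (ζ + circleMap 0 t θ • v)) 0) ^ (N - m))) := by
    refine continuous_const.mul (Continuous.mul ?_ ?_)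
    · exact ((hhp.comp hpt).mul (hF.continuous.comp hpt)).norm.pow 2
    · exact ((continuous_const.sub (hW.cont.comp hpt)).max continuous_const).pow _
  have hint : (1 - ψ ζ) ^ (N - m) * ∫ θ in (0 : ℝ)..2 * Real.pi,
        ‖(lin P m ε ζ v).eval (circleMap 0 t θ) * G (circleMap 0 t θ)‖ ^ 2
      ≤ 3 * ∫ θ in (0 : ℝ)..2 * Real.pi,
        ‖hp P m ε (ζ + circleMap 0 t θ • v) * F (ζ + circleMap 0 t θ • v)‖ ^ 2
          * (max (1 - ψ (ζ + circleMap 0 t θ • v)) 0) ^ (N - m) := by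
    rw [← intervalIntegral.integral_const_mul, ← intervalIntegral.integral_const_mul]
    refine intervalIntegral.integral_mono_on hpi (hcont1.intervalIntegrable _ _)
      (hcont2.intervalIntegrable _ _) fun θ _ => ?_
    have hc : ‖circleMap 0 t θ‖ ≤ 1 / (8 * (n + 1) * L₁) * ε * (1 - ψ ζ) := by
      have : ‖circleMap 0 t θ‖ = t := by simp [circleMap, abs_of_pos ht]
      rw [this]; exact htc
    have hwl := weight_line hL₁ hW hζ hε hε1 hN (Nat.sub_le N m) hv hc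
    rw [← hA] at hwl
    rw [eval_lin]
    simp only [hG]
    rw [← mul_assoc (hp P m ε (ζ + circleMap 0 t θ • v)), norm_mul _ (Complex.exp _), mul_pow]
    set Z : ℝ := ‖hp P m ε (ζ + circleMap 0 t θ • v) * F (ζ + circleMap 0 t θ • v)‖ ^ 2 with hZ
    have hZ0 : 0 ≤ Z := by positivity
    calc (1 - ψ ζ) ^ (N - m) * (Z * ‖Complex.exp (-A * circleMap 0 t θ)‖ ^ 2)
        = Z * ((1 - ψ ζ) ^ (N - m) * ‖Complex.exp (-A * circleMap 0 t θ)‖ ^ 2) := by ring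
      _ ≤ Z * (3 * (max (1 - ψ (ζ + circleMap 0 t θ • v)) 0) ^ (N - m)) :=
          mul_le_mul_of_nonneg_left hwl hZ0
      _ = 3 * (Z * (max (1 - ψ (ζ + circleMap 0 t θ • v)) 0) ^ (N - m)) := by ring
  have h5 := mul_le_mul_of_nonneg_right key hgM
  refine h5.trans ?_
  calc C₀ * (∫ θ in (0 : ℝ)..2 * Real.pi,
        ‖(lin P m ε ζ v).eval (circleMap 0 t θ) * G (circleMap 0 t θ)‖ ^ 2) * (1 - ψ ζ) ^ (N - m)
      = C₀ * ((1 - ψ ζ) ^ (N - m) * ∫ θ in (0 : ℝ)..2 * Real.pi,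
        ‖(lin P m ε ζ v).eval (circleMap 0 t θ) * G (circleMap 0 t θ)‖ ^ 2) := by ring
    _ ≤ C₀ * (3 * ∫ θ in (0 : ℝ)..2 * Real.pi,
        ‖hp P m ε (ζ + circleMap 0 t θ • v) * F (ζ + circleMap 0 t θ • v)‖ ^ 2
          * (max (1 - ψ (ζ + circleMap 0 t θ • v)) 0) ^ (N - m)) :=
        mul_le_mul_of_nonneg_left hint hC₀.le
    _ = _ := by ring

/-- **Module D2a**: the pointwise estimates. -/
theorem qpt (P : MvPolynomial (Fin n) ℂ) {m : ℕ} (hP : P.totalDegree ≤ m) (L : ℝ) :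
    ∃ C > (0 : ℝ), ∃ c₀ > (0 : ℝ), ∃ ε₀ > (0 : ℝ), ∀ ε : ℝ, 0 < ε → ε ≤ ε₀ → ∀ N : ℕ,
      N * ε ^ 2 = 1 → m + 1 ≤ N → ∀ (ψ : (Fin n → ℂ) → ℝ) (om : (Fin n → ℂ) → Fin n → ℂ),
      IsW L ψ om →
        (∀ ζ, ψ ζ < 1 → ∀ w, ‖w‖ ≤ c₀ * ε * (1 - ψ ζ) →
          (1 - ψ ζ) / 2 ≤ 1 - ψ (ζ + w) ∧ 1 - ψ (ζ + w) ≤ 2 * (1 - ψ ζ)) ∧
        ∀ F : (Fin n → ℂ) → ℂ, Differentiable ℂ F → ∀ ζ, ψ ζ < 1 → ∀ t : ℝ, 0 < t →
          t ≤ c₀ * ε * (1 - ψ ζ) →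
          (∀ j, ‖F ζ‖ ^ 2 * (‖gr P m ε ζ j‖ * t) ^ 2 * (1 - ψ ζ) ^ (N - m)
            ≤ C * ∫ θ in (0 : ℝ)..2 * Real.pi,
              ‖hp P m ε (ζ + circleMap 0 t θ • Pi.single j 1)
                * F (ζ + circleMap 0 t θ • Pi.single j 1)‖ ^ 2
                * (max (1 - ψ (ζ + circleMap 0 t θ • Pi.single j 1)) 0) ^ (N - m)) ∧
          (∀ v : Fin n → ℂ, ‖v‖ ≤ 1 →
            ‖F ζ‖ ^ 2 * (‖hp P m 0 v‖ * t ^ m) ^ 2 * (1 - ψ ζ) ^ (N - m)
            ≤ C * ∫ θ in (0 : ℝ)..2 * Real.pi,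
              ‖hp P m ε (ζ + circleMap 0 t θ • v) * F (ζ + circleMap 0 t θ • v)‖ ^ 2
                * (max (1 - ψ (ζ + circleMap 0 t θ • v)) 0) ^ (N - m)) := by
  obtain ⟨C₁, hC₁, h1⟩ := mal m 1
  obtain ⟨C₂, hC₂, h2⟩ := mal m m
  set L₁ : ℝ := |L| + 1 with hL
  have hL₁ : 1 ≤ L₁ := by rw [hL]; linarith [abs_nonneg L]
  have hn : (0 : ℝ) ≤ n := Nat.cast_nonneg n
  refine ⟨3 * C₁ + 3 * C₂, by positivity, 1 / (8 * (n + 1) * L₁), by positivity, 1, one_pos, ?_⟩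
  intro ε hε hε1 N hN _ ψ om hW'
  have hW : IsW L₁ ψ om := by
    refine ⟨hW'.cont, hW'.lower, hW'.bdd, hW'.inner, ?_, ?_⟩
    · intro ζ hζ w hw
      refine (hW'.der ζ hζ w hw).trans ?_
      apply mul_le_mul_of_nonneg_right _ (by positivity)
      rw [hL]; linarith [le_abs_self L]
    · intro ζ hζ j
      refine (hW'.lip ζ hζ j).trans ?_
      rw [hL]; linarith [le_abs_self L]
  refine ⟨?_, ?_⟩
  · intro ζ hζ w hw
    have hg0 : 0 < 1 - ψ ζ := by linarith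
    have h3 := (rel_change hL₁ hW hζ hε hε1 hw).1
    have h4 := abs_le.mp (h3.trans (by linarith : ε / 2 ≤ 1 / 2))
    have e : 1 - ψ (ζ + w) = (1 - ψ ζ) * (1 + ((1 - ψ (ζ + w)) / (1 - ψ ζ) - 1)) := by
      field_simp; ring
    constructor
    · rw [e]; nlinarith
    · rw [e]; nlinarith
  · intro F hF ζ hζ t ht htc
    have hI : ∀ v : Fin n → ℂ, 0 ≤ ∫ θ in (0 : ℝ)..2 * Real.pi,
              ‖hp P m ε (ζ + circleMap 0 t θ • v) * F (ζ + circleMap 0 t θ • v)‖ ^ 2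
                * (max (1 - ψ (ζ + circleMap 0 t θ • v)) 0) ^ (N - m) := by
      intro v
      refine intervalIntegral.integral_nonneg (by positivity) fun θ _ => ?_
      have : 0 ≤ max (1 - ψ (ζ + circleMap 0 t θ • v)) 0 := le_max_right _ _
      positivity
    refine ⟨?_, ?_⟩
    · intro j
      have hv : ‖(Pi.single j 1 : Fin n → ℂ)‖ ≤ 1 := by
        rw [pi_norm_le_iff_of_nonneg zero_le_one]
        intro i
        by_cases hi : i = j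
        · subst hi; simp
        · simp [Pi.single_eq_of_ne hi]
      have h3 := qdir P hP 1 hC₁ h1 hL₁ hW hζ hε hε1 hN hv hF ht htc
      rw [coeff_lin_one, pow_one] at h3
      refine h3.trans ?_
      apply mul_le_mul_of_nonneg_right _ (hI _)
      linarith
    · intro v hv
      have h3 := qdir P hP m hC₂ h2 hL₁ hW hζ hε hε1 hN hv hF ht htc
      rw [coeff_lin_top hP] at h3
      refine h3.trans ?_
      apply mul_le_mul_of_nonneg_right _ (hI _)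
      linarith

end Pool.Agent.H55.FB
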