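import Pool.Agent.H55.FB.Qpt
import Pool.Agent.H42.FB.Ton

/-!
# Module D2 of MP_6e521b_an: the Malgrange type estimate with weights

The pointwise estimate `qpt` is integrated with the Tonelli lemma (hypothesis `Ton`).
-/

open MeasureTheory
open Pool.Agent.H60.FB

namespace Pool.Agent.H55.FB

variable {n : ℕ}

/-- The Tonelli lemma (module D2b), as a statement. -/
def Ton (n : ℕ) : Prop :=
  ∃ C' : ℝ, 0 < C' ∧ ∀ (g K B : (Fin n → ℂ) → ℝ) (l C : ℝ) (v : Fin n → ℂ),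
    Continuous g → Continuous K → Continuous B → (∀ z, 0 ≤ K z) → (∀ z, 0 ≤ B z) →
    Integrable K → 0 < l → 0 ≤ C → ‖v‖ ≤ 1 →
    (∀ z, 0 < g z → ∀ w, ‖w‖ ≤ l * g z → g z / 2 ≤ g (z + w) ∧ g (z + w) ≤ 2 * g z) →
    (∀ z, 0 < g z → ∀ t, l * g z / 2 < t → t ≤ l * g z →
      B z ≤ C * ∫ θ in (0 : ℝ)..2 * Real.pi, K (z + circleMap 0 t θ • v)) →
    ∫ z in {z | 0 < g z}, B z ≤ C' * C * ∫ z, K z

lemma continuous_gr (P : MvPolynomial (Fin n) ℂ) (m : ℕ) (x : ℂ) (j : Fin n) :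
    Continuous (fun ζ : Fin n → ℂ => gr P m x ζ j) := by
  have h1 : Continuous (fun y : ℂ × (Fin n → ℂ) => gr P m y.1 y.2 j) := (contDiff_gr P m j).continuous
  have h2 : Continuous (fun ζ : Fin n → ℂ => (x, ζ)) := continuous_const.prodMk continuous_id
  have h3 := h1.comp h2
  simpa only [Function.comp_def] using h3

/-- A continuous function vanishing where `1 ≤ ψ` has compact support. -/
lemma integrable_of_weight {L : ℝ} {ψ : (Fin n → ℂ) → ℝ} {om : (Fin n → ℂ) → Fin n → ℂ}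
    (hW : IsW L ψ om) {f : (Fin n → ℂ) → ℝ} (hf : Continuous f) (h0 : ∀ ζ, 1 ≤ ψ ζ → f ζ = 0) :
    Integrable f := by
  refine hf.integrable_of_hasCompactSupport ?_
  refine HasCompactSupport.intro (isCompact_closedBall (0 : Fin n → ℂ) 2) ?_
  intro ζ hζ
  apply h0
  by_contra hcon
  push Not at hcon
  apply hζ
  rw [mem_closedBall_zero_iff, pi_norm_le_iff_of_nonneg (by norm_num)]
  intro i
  have h1 := hW.bdd ζ hcon
  unfold Pool.Agent.H60.FB.sq at h1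
  have h2 : ‖ζ i‖ ^ 2 ≤ ∑ j, ‖ζ j‖ ^ 2 :=
    Finset.single_le_sum (f := fun j => ‖ζ j‖ ^ 2) (fun _ _ => by positivity) (Finset.mem_univ i)
  nlinarith [norm_nonneg (ζ i)]

/-- **Module D2**: the Malgrange type estimate with weights, from the Tonelli lemma. -/
theorem qest_of_ton (hT : Ton n) (P : MvPolynomial (Fin n) ℂ) {m : ℕ} (hP : P.totalDegree ≤ m)
    (hv : ∃ v : Fin n → ℂ, hp P m 0 v ≠ 0) (L : ℝ) :
    ∃ C > (0 : ℝ), ∃ ε₀ > (0 : ℝ), ∀ ε : ℝ, 0 < ε → ε ≤ ε₀ → ∀ N : ℕ, N * ε ^ 2 = 1 →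
      m + 1 ≤ N → ∀ (ψ : (Fin n → ℂ) → ℝ) (om : (Fin n → ℂ) → Fin n → ℂ), IsW L ψ om →
        ∀ F : (Fin n → ℂ) → ℂ, Differentiable ℂ F →
          ∫ ζ, GG P m ε (1 - ψ ζ) ζ * ‖F ζ‖ ^ 2 * (max (1 - ψ ζ) 0) ^ (N - m)
            ≤ C * ∫ ζ, ‖hp P m ε ζ * F ζ‖ ^ 2 * (max (1 - ψ ζ) 0) ^ (N - m) := by
  obtain ⟨C', hC', hT⟩ := hT
  obtain ⟨C, hC, c₀, hc₀, ε₀, hε₀, hq⟩ := qpt P hP L
  -- the direction for the top coefficient
  obtain ⟨v₀, hv₀⟩ := hv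
  obtain ⟨v, hv1, hvne⟩ : ∃ v : Fin n → ℂ, ‖v‖ ≤ 1 ∧ hp P m 0 v ≠ 0 := by
    have hs : (0 : ℝ) < ‖v₀‖ + 1 := by positivity
    refine ⟨(((‖v₀‖ + 1)⁻¹ : ℝ) : ℂ) • v₀, ?_, ?_⟩
    · rw [norm_smul, Complex.norm_real, Real.norm_eq_abs, abs_of_pos (by positivity),
        inv_mul_le_iff₀ hs]
      linarith
    · have h := hp_smul hP (((‖v₀‖ + 1)⁻¹ : ℝ) : ℂ) 0 v₀
      rw [mul_zero] at h
      rw [h]
      refine mul_ne_zero (pow_ne_zero _ ?_) hv₀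
      exact_mod_cast (inv_pos.mpr hs).ne'
  set A : ℝ := ‖hp P m 0 v‖ with hA
  have hA0 : 0 < A := norm_pos_iff.mpr hvne
  refine ⟨C' * C * ((n : ℝ) * (2 / c₀) ^ 2 + ((2 / c₀) ^ m / A) ^ 2) + 1, by positivity,
    ε₀, hε₀, ?_⟩
  intro ε hε hεle N hN hmN ψ om hW F hF
  obtain ⟨hslow, hpt⟩ := hq ε hε hεle N hN hmN ψ om hW
  have hNm : N - m ≠ 0 := by omega
  set gp : (Fin n → ℂ) → ℝ := fun ζ => max (1 - ψ ζ) 0 with hgp
  have hgpc : Continuous gp := (continuous_const.sub hW.cont).max continuous_const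
  have hgp0 : ∀ ζ, 0 ≤ gp ζ := fun ζ => le_max_right _ _
  have hgpz : ∀ ζ, 1 ≤ ψ ζ → gp ζ = 0 := by
    intro ζ h
    exact max_eq_right (by linarith)
  have hgpp : ∀ ζ, ψ ζ < 1 → gp ζ = 1 - ψ ζ := by
    intro ζ h
    exact max_eq_left (by linarith)
  set K : (Fin n → ℂ) → ℝ := fun ζ => ‖hp P m ε ζ * F ζ‖ ^ 2 * gp ζ ^ (N - m) with hK
  have hKc : Continuous K :=
    (((differentiable_hp P m ε).continuous.mul hF.continuous).norm.pow 2).mul (hgpc.pow _)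
  have hK0 : ∀ ζ, 0 ≤ K ζ := fun ζ => mul_nonneg (by positivity) (pow_nonneg (hgp0 ζ) _)
  have hKi : Integrable K := integrable_of_weight hW hKc (by
    intro ζ h
    simp only [hK, hgpz ζ h, zero_pow hNm, mul_zero])
  set B : Fin n → (Fin n → ℂ) → ℝ := fun j ζ =>
    ‖F ζ‖ ^ 2 * (‖gr P m ε ζ j‖ * (c₀ * ε * gp ζ / 2)) ^ 2 * gp ζ ^ (N - m) with hB
  set Bv : (Fin n → ℂ) → ℝ := fun ζ =>
    ‖F ζ‖ ^ 2 * (A * (c₀ * ε * gp ζ / 2) ^ m) ^ 2 * gp ζ ^ (N - m) with hBv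
  have hBc : ∀ j, Continuous (B j) := by
    intro j
    refine (((hF.continuous.norm.pow 2).mul ?_)).mul (hgpc.pow _)
    exact ((continuous_gr P m ε j).norm.mul ((continuous_const.mul hgpc).div_const 2)).pow 2
  have hBvc : Continuous Bv := by
    refine (((hF.continuous.norm.pow 2).mul ?_)).mul (hgpc.pow _)
    exact (continuous_const.mul (((continuous_const.mul hgpc).div_const 2).pow m)).pow 2
  have hB0 : ∀ j ζ, 0 ≤ B j ζ := fun j ζ => by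
    have := hgp0 ζ
    simp only [hB]; positivity
  have hBv0 : ∀ ζ, 0 ≤ Bv ζ := fun ζ => by
    have := hgp0 ζ
    simp only [hBv]; positivity
  have hBi : ∀ j, Integrable (B j) := fun j => integrable_of_weight hW (hBc j) (by
    intro ζ h
    simp only [hB, hgpz ζ h, zero_pow hNm, mul_zero])
  have hBvi : Integrable Bv := integrable_of_weight hW hBvc (by
    intro ζ h
    simp only [hBv, hgpz ζ h, zero_pow hNm, mul_zero])
  have hgc : Continuous (fun ζ => 1 - ψ ζ) := continuous_const.sub hW.cont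
  have hl : 0 < c₀ * ε := by positivity
  have hslow' : ∀ z, 0 < 1 - ψ z → ∀ w, ‖w‖ ≤ c₀ * ε * (1 - ψ z) →
      (1 - ψ z) / 2 ≤ 1 - ψ (z + w) ∧ 1 - ψ (z + w) ≤ 2 * (1 - ψ z) := by
    intro z hz w hw
    exact hslow z (by linarith) w hw
  have hsing : ∀ j, ‖(Pi.single j 1 : Fin n → ℂ)‖ ≤ 1 := by
    intro j
    rw [pi_norm_le_iff_of_nonneg zero_le_one]
    intro i
    by_cases hi : i = j
    · subst hi; simp
    · simp [Pi.single_eq_of_ne hi]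
  -- restriction to the positivity set is harmless
  have hmeas : MeasurableSet {ζ | 0 < 1 - ψ ζ} := (isOpen_lt continuous_const hgc).measurableSet
  have hres : ∀ f : (Fin n → ℂ) → ℝ, (∀ ζ, 1 ≤ ψ ζ → f ζ = 0) →
      ∫ ζ in {ζ | 0 < 1 - ψ ζ}, f ζ = ∫ ζ, f ζ := by
    intro f h
    apply setIntegral_eq_integral_of_forall_compl_eq_zero
    intro ζ hζ
    apply h
    have h2 : ¬ (0 < 1 - ψ ζ) := hζ
    linarith
  have hIj : ∀ j, ∫ ζ, B j ζ ≤ C' * C * ∫ ζ, K ζ := by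
    intro j
    rw [← hres (B j) (by intro ζ h; simp only [hB, hgpz ζ h, zero_pow hNm, mul_zero])]
    refine hT (fun ζ => 1 - ψ ζ) K (B j) (c₀ * ε) C (Pi.single j 1) hgc hKc (hBc j) hK0 (hB0 j)
      hKi hl hC.le (hsing j) hslow' ?_
    intro z hz t ht1 ht2
    have hz1 : ψ z < 1 := by linarith
    have ht0 : 0 < t := lt_trans (by positivity) ht1
    have h1 := (hpt F hF z hz1 t ht0 ht2).1 j
    refine le_trans ?_ h1
    simp only [hB, hgpp z hz1]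
    apply mul_le_mul_of_nonneg_right _ (by positivity)
    apply mul_le_mul_of_nonneg_left _ (by positivity)
    apply pow_le_pow_left₀ (by positivity)
    apply mul_le_mul_of_nonneg_left ht1.le (norm_nonneg _)
  have hIv : ∫ ζ, Bv ζ ≤ C' * C * ∫ ζ, K ζ := by
    rw [← hres Bv (by intro ζ h; simp only [hBv, hgpz ζ h, zero_pow hNm, mul_zero])]
    refine hT (fun ζ => 1 - ψ ζ) K Bv (c₀ * ε) C v hgc hKc hBvc hK0 hBv0
      hKi hl hC.le hv1 hslow' ?_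
    intro z hz t ht1 ht2
    have hz1 : ψ z < 1 := by linarith
    have ht0 : 0 < t := lt_trans (by positivity) ht1
    have h1 := (hpt F hF z hz1 t ht0 ht2).2 v hv1
    refine le_trans ?_ h1
    simp only [hBv, hgpp z hz1]
    apply mul_le_mul_of_nonneg_right _ (by positivity)
    apply mul_le_mul_of_nonneg_left _ (by positivity)
    apply pow_le_pow_left₀ (by positivity)
    apply mul_le_mul_of_nonneg_left _ hA0.le
    exact pow_le_pow_left₀ (by positivity) ht1.le m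
  -- the sum
  have hsum : (fun ζ => GG P m ε (1 - ψ ζ) ζ * ‖F ζ‖ ^ 2 * (max (1 - ψ ζ) 0) ^ (N - m))
      = fun ζ => (2 / c₀) ^ 2 * (∑ j, B j ζ) + ((2 / c₀) ^ m / A) ^ 2 * Bv ζ := by
    funext ζ
    rcases lt_or_ge (ψ ζ) 1 with h | h
    · have hg : gp ζ = 1 - ψ ζ := hgpp ζ h
      have e0 : max (1 - ψ ζ) 0 = 1 - ψ ζ := hg
      simp only [hB, hBv, GG]
      rw [e0, hg]
      set g : ℝ := 1 - ψ ζ with hgd
      have e1 : ∀ j, ‖F ζ‖ ^ 2 * (‖gr P m ε ζ j‖ * (c₀ * ε * g / 2)) ^ 2 * g ^ (N - m)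
          = (‖F ζ‖ ^ 2 * (c₀ * ε * g / 2) ^ 2 * g ^ (N - m)) * ‖gr P m ε ζ j‖ ^ 2 := by
        intro j; ring
      rw [Finset.sum_congr rfl (fun j _ => e1 j), ← Finset.mul_sum]
      have e2 : (2 / c₀) ^ 2 * (c₀ * ε * g / 2) ^ 2 = (g * ε) ^ 2 := by
        field_simp
      have e3 : ((2 / c₀) ^ m / A) ^ 2 * (A * (c₀ * ε * g / 2) ^ m) ^ 2 = (g * ε) ^ (2 * m) := by
        have e4 : (2 / c₀) ^ m / A * (A * (c₀ * ε * g / 2) ^ m) = (g * ε) ^ m := by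
          have e5 : (2 / c₀) ^ m / A * (A * (c₀ * ε * g / 2) ^ m)
              = ((2 / c₀) * (c₀ * ε * g / 2)) ^ m := by
            rw [mul_pow (2 / c₀)]
            field_simp
          rw [e5]
          congr 1
          field_simp
        rw [← mul_pow, e4, ← pow_mul, mul_comm m 2]
      set S : ℝ := ∑ j, ‖gr P m ε ζ j‖ ^ 2 with hS
      calc ((g * ε) ^ 2 * S + (g * ε) ^ (2 * m)) * ‖F ζ‖ ^ 2 * g ^ (N - m)
          = ((2 / c₀) ^ 2 * (c₀ * ε * g / 2) ^ 2 * S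
            + ((2 / c₀) ^ m / A) ^ 2 * (A * (c₀ * ε * g / 2) ^ m) ^ 2)
              * ‖F ζ‖ ^ 2 * g ^ (N - m) := by rw [e2, e3]
        _ = _ := by ring
    · have hg : gp ζ = 0 := hgpz ζ h
      have e0 : max (1 - ψ ζ) 0 = 0 := hg
      simp only [hB, hBv]
      rw [e0, hg]
      simp [zero_pow hNm]
  rw [hsum, integral_add, integral_const_mul, integral_const_mul, integral_finsetSum]
  · have hKint : 0 ≤ ∫ ζ, K ζ := integral_nonneg hK0
    have h1 : ∑ j, ∫ ζ, B j ζ ≤ ∑ _j : Fin n, C' * C * ∫ ζ, K ζ :=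
      Finset.sum_le_sum fun j _ => hIj j
    rw [Finset.sum_const, Finset.card_univ, Fintype.card_fin, nsmul_eq_mul] at h1
    have h2 := mul_le_mul_of_nonneg_left h1 (by positivity : 0 ≤ (2 / c₀) ^ 2)
    have h3 := mul_le_mul_of_nonneg_left hIv (by positivity : 0 ≤ ((2 / c₀) ^ m / A) ^ 2)
    nlinarith
  · intro j _; exact hBi j
  · exact (integrable_finsetSum _ fun j _ => hBi j).const_mul _
  · exact hBvi.const_mul _

/-- The Tonelli lemma holds. -/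
theorem ton_holds (n : ℕ) : Ton n := by
  refine ⟨14 * Real.pi, by positivity, ?_⟩
  intro g K B l C v hg hKc hBc hK0 hB0 hKi hl hC hv hgw hB
  exact (Pool.Agent.H42.FB.ton hg hl hgw hK0 hKc hKi hB0 hBc hv hC hB).2

/-- **Module D2**: the Malgrange type estimate with weights. -/
theorem qest (P : MvPolynomial (Fin n) ℂ) {m : ℕ} (hP : P.totalDegree ≤ m)
    (hv : ∃ v : Fin n → ℂ, hp P m 0 v ≠ 0) (L : ℝ) :
    ∃ C > (0 : ℝ), ∃ ε₀ > (0 : ℝ), ∀ ε : ℝ, 0 < ε → ε ≤ ε₀ → ∀ N : ℕ, N * ε ^ 2 = 1 →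
      m + 1 ≤ N → ∀ (ψ : (Fin n → ℂ) → ℝ) (om : (Fin n → ℂ) → Fin n → ℂ), IsW L ψ om →
        ∀ F : (Fin n → ℂ) → ℂ, Differentiable ℂ F →
          ∫ ζ, GG P m ε (1 - ψ ζ) ζ * ‖F ζ‖ ^ 2 * (max (1 - ψ ζ) 0) ^ (N - m)
            ≤ C * ∫ ζ, ‖hp P m ε ζ * F ζ‖ ^ 2 * (max (1 - ψ ζ) 0) ^ (N - m) :=
  qest_of_ton (ton_holds n) P hP hv L

end Pool.Agent.H55.FB
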